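import Pool.Agent.Helper18.SU.Goals

/-! Packet PTF of MP_f2ad72_co: every tournament on `b + 1` vertices contains every oriented path
with `b` vertices. -/

set_option autoImplicit false

namespace Pool.Agent.Helper38.SU

open Pool.Agent.Helper18.SU

theorem SPTall (h4 : SPA_stmt) (h5 : SPB_stmt) : SPT_stmt := by
  intro m
  induction m using Nat.strong_induction_on with
  | _ m ih =>
    intro V _ A hT d s X hs hX x hx y hy hxy hcard
    have main : ∀ x ∈ X, ∀ y ∈ X, x ≠ y → Arc A d x y →
        blk d s + 2 ≤ (Reach A d X x ∪ Reach A d X y).card →
        Orig A (d :: s) X x ∨ Orig A (d :: s) X y := by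
      intro x hx y hy hxy hA hc
      cases s with
      | nil =>
        left
        have hy' : y ∈ X.erase x := Finset.mem_erase.2 ⟨hxy.symm, hy⟩
        exact ⟨hx, y, hy', hA, hy'⟩
      | cons e s' =>
        rcases eq_or_ne e d with rfl | he
        · exact h4 m ih V A hT e s' X hs hX x hx y hy hA hc
        · have he' : e = !d := by
            cases e <;> cases d <;> simp_all
          subst he'
          exact h5 m ih V A hT d s' X hs hX x hx y hy hA
    have hor : Arc A d x y ∨ Arc A d y x := by
      cases d with
      | true => exact hT.2 x y hxy
      | false => exact (hT.2 x y hxy).symm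
    rcases hor with h | h
    · exact main x hx y hy hxy h hcard
    · rw [Finset.union_comm] at hcard
      exact (main y hy x hx hxy.symm h hcard).symm

theorem conv {V : Type} [DecidableEq V] (A : V → V → Prop) : ∀ (t : List Bool) (X : Finset V)
    (x : V), Orig A t X x → ∃ g : ℕ → V, g 0 = x ∧ (∀ i ≤ t.length, g i ∈ X) ∧
      (∀ i ≤ t.length, ∀ j ≤ t.length, g i = g j → i = j) ∧
      ∀ i < t.length, Arc A (t.getD i true) (g i) (g (i + 1)) := by
  intro t
  induction t with
  | nil =>
    intro X x hx
    refine ⟨fun _ => x, rfl, fun _ _ => hx, ?_, ?_⟩
    · intro i hi j hj _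
      simp only [List.length_nil, Nat.le_zero] at hi hj
      rw [hi, hj]
    · intro i hi
      simp at hi
  | cons d s ih =>
    intro X x hx
    obtain ⟨hxX, y, _, hA, ho⟩ := hx
    obtain ⟨g, h0, hm, hi, ha⟩ := ih (X.erase x) y ho
    refine ⟨fun i => Nat.casesOn i x g, rfl, ?_, ?_, ?_⟩
    · intro i hi'
      cases i with
      | zero => exact hxX
      | succ i =>
        rw [List.length_cons] at hi'
        exact Finset.mem_of_mem_erase (hm i (by omega))
    · intro i hi' j hj' hij
      rw [List.length_cons] at hi' hj'
      cases i with
      | zero =>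
        cases j with
        | zero => rfl
        | succ j =>
          exfalso
          have := hm j (by omega)
          exact (Finset.ne_of_mem_erase this) hij.symm
      | succ i =>
        cases j with
        | zero =>
          exfalso
          have := hm i (by omega)
          exact (Finset.ne_of_mem_erase this) hij
        | succ j =>
          have := hi i (by omega) j (by omega) hij
          rw [this]
    · intro i hi'
      rw [List.length_cons] at hi'
      cases i with
      | zero =>
        simp only [List.getD_cons_zero]
        rw [h0]
        exact hA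
      | succ i =>
        simp only [List.getD_cons_succ]
        exact ha i (by omega)

theorem PTF (_h1 : REA_stmt) (_h2 : SUB_stmt) (h3 : PTL_stmt) (h4 : SPA_stmt) (h5 : SPB_stmt) :
    PTF_stmt := by
  intro V _ A hT b s X hb
  cases b with
  | zero =>
    have : X.Nonempty := Finset.card_pos.1 (by omega)
    obtain ⟨x, _⟩ := this
    exact ⟨fun _ => x, fun i hi => absurd hi (Nat.not_lt_zero _),
      fun i hi => absurd hi (Nat.not_lt_zero _), fun i hi => absurd hi (Nat.not_lt_zero _)⟩
  | succ c =>
    obtain ⟨x, hx⟩ := h3 c (fun k _ => SPTall h4 h5 k) V A hT ((List.range c).map s) X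
      (by simp) (by simp; omega)
    obtain ⟨g, _, hm, hi, ha⟩ := conv A _ X x hx
    rw [List.length_map, List.length_range] at hm hi ha
    refine ⟨g, fun i hi' => hm i (by omega), fun i hi' j hj' hij => hi i (by omega) j (by omega) hij,
      fun i hi' => ?_⟩
    have := ha i (by omega)
    rw [List.getD_eq_getElem _ _ (by simp; omega)] at this
    simpa using this

end Pool.Agent.Helper38.SU
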